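import Pool.Agent.H862.EC.Cor

/-!
# The Riemann hypothesis, the analytic rank and the linear independence of the zeros of an elliptic curve from
# two averages of its numbers of points

Let `E : y² = x³ + a x + b` be an elliptic curve over `ℚ`, `a, b ∈ ℤ`, of conductor `N`, `f` its newform and
`L(s)` its `L`-function, with the central point `s = 1`. For a prime power `q = p^k` let
`δ(q) = (#E(𝔽_q) - q - 1) log p` (for the finitely many bad primes `δ(p^k) = -a_p^k log p`), and `δ(n) = 0`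
otherwise. Put

`A(x) = (1/2) (x⁻¹ ∑_{n ≤ x} δ(n) + x ∑_{n > x} δ(n)/n²) = (1/2) ∑_n δ(n) min (1/x, x/n²)`,

a weighted average of the excess of points over the finite fields. For every `κ > 0` the logarithmic means over
`[1, X]` of `exp (κ A(x))` have a limit in `(0, ∞]`. It is `∞` if and only if the Riemann hypothesis for `L` is
false. If it is true, the limit is `exp (κ m) E(κ)`, where `m = ord_{s=1} L`, and
`E(κ) ≥ ∏_{γ > 0} I₀(2 κ m_γ/(1 + γ²))`, with equality if and only if the positive ordinates `γ` of the zeros are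
linearly independent over `ℚ`; the logarithmic means of `A` itself converge to `m`. Hence for every `r` (for
example the rank of `E(ℚ)`): the Riemann hypothesis, `ord_{s=1} L = r` and the linear independence hold together if
and only if two one-sided bounds hold along some sequences, an upper bound for the means of `exp (κ A)` and a lower
bound for the means of `A`.
-/

set_option autoImplicit false

open MeasureTheory Filter Topology Set Complex Classical CongruenceSubgroup UpperHalfPlane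
open scoped MatrixGroups

namespace Pool.Agent.Results.MP_3283e1_nt.TwoAverages

/-- `#E(𝔽_p)`: the number of points of `y² = x³ + a x + b` modulo `p`, with the point at infinity. -/
noncomputable def numPoints (a b : ℤ) (p : ℕ) : ℕ :=
  Nat.card {q : ZMod p × ZMod p // q.2 ^ 2 = q.1 ^ 3 + (a : ZMod p) * q.1 + (b : ZMod p)} + 1

/-- `p` is a prime that does not divide `2 Δ`, where `Δ = -4 a³ - 27 b²`. -/
def Good (a b : ℤ) (p : ℕ) : Prop :=
  p.Prime ∧ ¬ ((p : ℤ) ∣ 2 * (-4 * a ^ 3 - 27 * b ^ 2))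

/-- The `n`-th Fourier coefficient of `f`. -/
noncomputable def coef {N : ℕ} (f : CuspForm (Gamma0 N : Subgroup (GL (Fin 2) ℝ)) 2) (n : ℕ) : ℂ :=
  (qExpansion 1 f).coeff n

/-- `f ∈ S_2(Γ₀(N))` is the newform of the elliptic curve `E : y² = x³ + a x + b` of conductor `N`: the
Fourier coefficients `c(n)` of `f` are real with `c(1) = 1`, they satisfy the Hecke relations
`c(mn) = c(m) c(n)` for coprime `m`, `n` and `c(p^(j+2)) = c(p) c(p^(j+1)) - p c(p^j)` (without the last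
term if `p ∣ N`), `c(p) = a_p = p + 1 - #E(𝔽_p)` for all primes `p ∤ 2Δ`, `|c(p)| ≤ 2 √p` for all
`p ∤ N` (Hasse), `c(p) = 0, 1, -1` for `p ∣ N`, and `f` is an eigenfunction of the involution of Fricke,
`f(-1/(Nz)) = w N z² f(z)` with `w = 1` or `w = -1`. -/
structure IsNewformOf (a b : ℤ) (N : ℕ) (f : CuspForm (Gamma0 N : Subgroup (GL (Fin 2) ℝ)) 2) :
    Prop where
  one : coef f 1 = 1
  real : ∀ n, (coef f n).im = 0
  mul : ∀ m n : ℕ, Nat.Coprime m n → coef f (m * n) = coef f m * coef f n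
  pow : ∀ p j : ℕ, p.Prime → coef f (p ^ (j + 2)) = coef f p * coef f (p ^ (j + 1)) -
      (if p ∣ N then 0 else (p : ℂ) * coef f (p ^ j))
  points : ∀ p : ℕ, Good a b p → coef f p = (p : ℂ) + 1 - (numPoints a b p : ℂ)
  good : ∀ p : ℕ, p.Prime → ¬ p ∣ N → ‖coef f p‖ ≤ 2 * Real.sqrt p
  bad : ∀ p : ℕ, p.Prime → p ∣ N → coef f p = 0 ∨ coef f p = 1 ∨ coef f p = -1
  fricke : ∃ w : ℂ, (w = 1 ∨ w = -1) ∧ ∀ z z' : ℍ, (z' : ℂ) = -1 / ((N : ℂ) * (z : ℂ)) →
    f z' = w * (N : ℂ) * (z : ℂ) ^ 2 * f z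

/-- the power sums `α^k + β^k` of the roots `α`, `β` of `X² - t X + q` -/
noncomputable def powerSum (t q : ℝ) : ℕ → ℝ
  | 0 => 2
  | 1 => t
  | (k + 2) => t * powerSum t q (k + 1) - q * powerSum t q k

section
variable {N : ℕ} (f : CuspForm (Gamma0 N : Subgroup (GL (Fin 2) ℝ)) 2)

/-- the excess of points: `δ(p^k) = -(α^k + β^k) log p` with the roots of `X² - c(p) X + p`, and
`δ(p^k) = -c(p)^k log p` for `p ∣ N` (the roots of `X² - c(p) X`); `δ(n) = 0` if `n` is not a prime power. For a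
prime `p` of good reduction `α^k + β^k = p^k + 1 - #E(𝔽_{p^k})`, so that `δ(p^k) = (#E(𝔽_{p^k}) - p^k - 1) log p`. -/
noncomputable def excess (n : ℕ) : ℝ :=
  if IsPrimePow n then -(powerSum (coef f n.minFac).re (if n.minFac ∣ N then 0 else (n.minFac : ℝ))
    (n.factorization n.minFac) * Real.log n.minFac) else 0

/-- `A(x) = (1/2) (x⁻¹ ∑_{n ≤ x} δ(n) + x ∑_{n > x} δ(n)/n²)` -/
noncomputable def average (x : ℝ) : ℝ :=
  1 / 2 * (1 / x * (∑ n ∈ Finset.Icc 1 ⌊x⌋₊, excess f n) +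
    x * ∑' n : ℕ, if x < n then excess f n / (n : ℝ) ^ 2 else 0)

/-- the mean of `exp (κ A(e^y))` over `0 ≤ y ≤ Y`, that is `(log X)⁻¹ ∫_1^X exp (κ A(x)) dx/x` for `X = e^Y` -/
noncomputable def expMean (κ Y : ℝ) : ℝ := (1 / Y) * ∫ y in (0 : ℝ)..Y, Real.exp (κ * average f (Real.exp y))

/-- the mean of `A(e^y)` over `0 ≤ y ≤ Y` -/
noncomputable def mean (Y : ℝ) : ℝ := (1 / Y) * ∫ y in (0 : ℝ)..Y, average f (Real.exp y)

end

/-- the modified Bessel function `I₀(x) = ∫_0^1 exp (x cos 2πu) du` -/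
noncomputable def I₀ (x : ℝ) : ℝ := ∫ u in (0 : ℝ)..1, Real.exp (x * Real.cos (2 * Real.pi * u))

section
variable {N : ℕ} [NeZero N] (f : CuspForm (Gamma0 N : Subgroup (GL (Fin 2) ℝ)) 2)

/-- the `L`-function of `f` (Mathlib): the entire function which is `∑ c(n) n^(-s)` for `Re s > 2` -/
noncomputable def L (s : ℂ) : ℂ := ModularForm.L (k := 2) (by norm_num) f s

/-- the Riemann hypothesis for `L(s)`: the zeros with `Re s > 0` have `Re s = 1` -/
def RiemannHyp : Prop := ∀ s : ℂ, 0 < s.re → L f s = 0 → s.re = 1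

/-- `m = ord_{s=1} L(s)` -/
noncomputable def order : ℕ := analyticOrderNatAt (L f) 1

/-- the positive ordinates of the zeros on the line `Re s = 1` -/
def ordinates : Set ℝ := {t : ℝ | 0 < t ∧ L f (1 + t * Complex.I) = 0}

/-- the multiplicity of the zero `1 + it` -/
noncomputable def mult (t : ℝ) : ℕ := analyticOrderNatAt (L f) (1 + t * Complex.I)

/-- the positive ordinates are linearly independent over `ℚ` -/
def Independent : Prop := LinearIndepOn ℚ id (ordinates f)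

/-- the zeros `1 + it`, `t > 0`, are simple -/
def Simple : Prop := ∀ t ∈ ordinates f, mult f t = 1

/-- `∏_γ I₀(2 κ m_γ/(1 + γ²))` over the distinct positive ordinates -/
noncomputable def product (κ : ℝ) : ℝ := ∏' t : ordinates f, I₀ (2 * κ * ((mult f t : ℝ) / (1 + (t : ℝ) ^ 2)))

/-- `∏_γ I₀(2 κ/(1 + γ²))^(m_γ)` over the distinct positive ordinates -/
noncomputable def productMult (κ : ℝ) : ℝ := ∏' t : ordinates f, I₀ (2 * κ * (1 / (1 + (t : ℝ) ^ 2))) ^ mult f t

end

/-! ### proofs -/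

open Pool.Agent.H862.EC
open Pool.Agent.N804.LI (EM)

theorem hecke {a b : ℤ} {N : ℕ} {f : CuspForm (Gamma0 N : Subgroup (GL (Fin 2) ℝ)) 2}
    (hf : IsNewformOf a b N f) : Pool.Agent.TH941.Hecke f where
  one := hf.one
  real := hf.real
  mul := hf.mul
  pow := hf.pow
  good := hf.good
  bad := fun p hp h => by
    rcases hf.bad p hp h with h1 | h1 | h1
    · have h2 : ‖coef f p‖ ≤ 1 := by rw [h1]; simp
      exact h2
    · have h2 : ‖coef f p‖ ≤ 1 := by rw [h1]; simp
      exact h2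
    · have h2 : ‖coef f p‖ ≤ 1 := by rw [h1]; simp
      exact h2

theorem func_eq {a b : ℤ} {N : ℕ} [NeZero N] {f : CuspForm (Gamma0 N : Subgroup (GL (Fin 2) ℝ)) 2}
    (hf : IsNewformOf a b N f) : ∃ ε : ℂ, ‖ε‖ = 1 ∧ ∀ s : ℂ, Pool.Agent.NH98.RT.Xi.xi f (-s) =
      ε * Pool.Agent.NH98.RT.Xi.xi f s := by
  obtain ⟨w, hw, h⟩ := hf.fricke
  refine ⟨-w, ?_, Pool.Agent.NH98.RT.Xi.xi_fe f h⟩
  rcases hw with rfl | rfl <;> simp

section
variable {a b : ℤ} {N : ℕ} [NeZero N] {f : CuspForm (Gamma0 N : Subgroup (GL (Fin 2) ℝ)) 2}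

theorem excess_eq (hf : IsNewformOf a b N f) (n : ℕ) : excess f n = dl f n :=
  (dl_eq (hecke hf) (P := powerSum) (fun _ _ => rfl) (fun _ _ => rfl) (fun _ _ _ => rfl) n).symm

theorem average_eq (hf : IsNewformOf a b N f) (y : ℝ) : average f (Real.exp y) = PA f y := by
  rw [PA_eq (hecke hf)]
  unfold average
  simp only [excess_eq hf]

theorem expMean_eq (hf : IsNewformOf a b N f) (κ : ℝ) : expMean f κ = EM (PA f) κ := by
  funext Y
  unfold expMean EM
  simp only [average_eq hf]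

theorem on_line (hf : IsNewformOf a b N f) (h : RiemannHyp f) {κ : ℝ} (hκ : 0 < κ) :
    (∃ E : ℝ, 0 < E ∧ Tendsto (expMean f κ) atTop (𝓝 (Real.exp (κ * order f) * E)) ∧
      product f κ ≤ E ∧ (E = product f κ ↔ Independent f) ∧
      productMult f κ ≤ E ∧ (E = productMult f κ ↔ Independent f ∧ Simple f)) ∧
    0 < product f κ ∧
    (Multipliable fun t : ordinates f => I₀ (2 * κ * ((mult f t : ℝ) / (1 + (t : ℝ) ^ 2)))) ∧
    Multipliable fun t : ordinates f => I₀ (2 * κ * (1 / (1 + (t : ℝ) ^ 2))) ^ mult f t := by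
  obtain ⟨ε, hε, hfe⟩ := func_eq hf
  rw [expMean_eq hf]
  exact main_line (hecke hf) hε hfe h hκ

theorem off_line (hf : IsNewformOf a b N f) (h : ¬ RiemannHyp f) {κ : ℝ} (hκ : 0 < κ) :
    Tendsto (expMean f κ) atTop atTop := by
  obtain ⟨ε, hε, hfe⟩ := func_eq hf
  rw [expMean_eq hf]
  exact main_off (hecke hf) hε hfe h hκ

theorem mean_lim (hf : IsNewformOf a b N f) (h : RiemannHyp f) :
    Tendsto (mean f) atTop (𝓝 (order f : ℝ)) := by
  obtain ⟨ε, hε, hfe⟩ := func_eq hf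
  have h1 := main_mean (hecke hf) hε hfe h
  refine h1.congr fun Y => ?_
  unfold mean
  simp only [average_eq hf]

end

/-- **Theorem.** Let `E : y² = x³ + a x + b` be an elliptic curve over `ℚ` with the newform `f` of level `N` and let
`κ > 0`.
(1) If the Riemann hypothesis for `L(s)` is false, then the means of `exp (κ A)` tend to `+∞`.
(2) If it is true, they have the limit `exp (κ m) E`, `m = ord_{s=1} L(s)`, with `E ≥ ∏ I₀(2 κ m_γ/(1 + γ²))` and
`E ≥ ∏ I₀(2 κ/(1 + γ²))^(m_γ)` (both products converge); equality holds in the first if and only if the positive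
ordinates are linearly independent over `ℚ`, and in the second if and only if moreover the zeros are simple; and the
means of `A` tend to `m`.
(3), (4) For every natural `r` (for instance the rank of `E(ℚ)`): the Riemann hypothesis, `m = r` and the linear
independence (and simplicity) hold if and only if the LOWER limit of the means of `exp (κ A)` is
`≤ exp (κ r) ∏ I₀(2 κ m_γ/(1 + γ²))` (`≤ exp (κ r) ∏ I₀(2 κ/(1 + γ²))^(m_γ)`) and the UPPER limit of the means of `A`
is `≥ r`. -/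
theorem result (a b : ℤ) (_ : 4 * a ^ 3 + 27 * b ^ 2 ≠ 0) (N : ℕ) [NeZero N]
    (f : CuspForm (Gamma0 N : Subgroup (GL (Fin 2) ℝ)) 2) (hf : IsNewformOf a b N f) (κ : ℝ) (hκ : 0 < κ) :
    (¬ RiemannHyp f → Tendsto (expMean f κ) atTop atTop) ∧
    (RiemannHyp f → (∃ E : ℝ, 0 < E ∧ Tendsto (expMean f κ) atTop (𝓝 (Real.exp (κ * order f) * E)) ∧
      product f κ ≤ E ∧ (E = product f κ ↔ Independent f) ∧
      productMult f κ ≤ E ∧ (E = productMult f κ ↔ Independent f ∧ Simple f)) ∧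
      (Multipliable fun t : ordinates f => I₀ (2 * κ * ((mult f t : ℝ) / (1 + (t : ℝ) ^ 2)))) ∧
      (Multipliable fun t : ordinates f => I₀ (2 * κ * (1 / (1 + (t : ℝ) ^ 2))) ^ mult f t) ∧
      Tendsto (mean f) atTop (𝓝 (order f : ℝ))) ∧
    (∀ r : ℕ, (RiemannHyp f ∧ order f = r ∧ Independent f ↔
      (∀ δ : ℝ, 0 < δ → ∃ᶠ Y in atTop, expMean f κ Y ≤ Real.exp (κ * r) * product f κ + δ) ∧
      ∀ δ : ℝ, 0 < δ → ∃ᶠ Y in atTop, r - δ ≤ mean f Y)) ∧
    ∀ r : ℕ, (RiemannHyp f ∧ order f = r ∧ Independent f ∧ Simple f ↔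
      (∀ δ : ℝ, 0 < δ → ∃ᶠ Y in atTop, expMean f κ Y ≤ Real.exp (κ * r) * productMult f κ + δ) ∧
      ∀ δ : ℝ, 0 < δ → ∃ᶠ Y in atTop, r - δ ≤ mean f Y) := by
  have hfr : ∀ B : ℝ, (∃ᶠ Y in atTop, expMean f κ Y ≤ B) → RiemannHyp f := by
    intro B hB
    by_contra h
    obtain ⟨Y, h1, h2⟩ := (hB.and_eventually ((off_line hf h hκ).eventually (eventually_gt_atTop B))).exists
    linarith
  have hle : ∀ {L B : ℝ}, Tendsto (expMean f κ) atTop (𝓝 L) →
      (∀ δ : ℝ, 0 < δ → ∃ᶠ Y in atTop, expMean f κ Y ≤ B + δ) → L ≤ B := by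
    intro L B hL hB
    by_contra hcon
    push Not at hcon
    obtain ⟨Y, h1, h2⟩ := ((hB ((L - B) / 2) (by linarith)).and_eventually
      (hL.eventually (lt_mem_nhds (show (L + B) / 2 < L by linarith)))).exists
    linarith
  have hev : ∀ {L B : ℝ}, Tendsto (expMean f κ) atTop (𝓝 L) → L = B →
      ∀ δ : ℝ, 0 < δ → ∃ᶠ Y in atTop, expMean f κ Y ≤ B + δ := by
    intro L B hL hB δ hδ
    exact ((hL.eventually (gt_mem_nhds (show L < B + δ by linarith))).mono fun Y hY => le_of_lt hY).frequently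
  -- the lower bound for the order
  have hord : ∀ r : ℕ, RiemannHyp f → (∀ δ : ℝ, 0 < δ → ∃ᶠ Y in atTop, r - δ ≤ mean f Y) → (r : ℝ) ≤ order f := by
    intro r h1 h2
    by_contra hcon
    push Not at hcon
    obtain ⟨Y, h3, h4⟩ := ((h2 ((r - order f) / 2) (by linarith)).and_eventually
      ((mean_lim hf h1).eventually (gt_mem_nhds (show (order f : ℝ) < (r + order f) / 2 by linarith)))).exists
    linarith
  have hmr : ∀ r : ℕ, RiemannHyp f → order f = r → ∀ δ : ℝ, 0 < δ → ∃ᶠ Y in atTop, r - δ ≤ mean f Y := by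
    intro r h1 h2 δ hδ
    have h3 := mean_lim hf h1
    rw [h2] at h3
    exact ((h3.eventually (lt_mem_nhds (show (r : ℝ) - δ < r by linarith))).mono fun Y hY => le_of_lt hY).frequently
  -- the comparison
  have hcmp : ∀ (r m : ℕ) (E Q : ℝ), 0 < Q → Q ≤ E → (r : ℝ) ≤ m → Real.exp (κ * m) * E ≤ Real.exp (κ * r) * Q →
      m = r ∧ E = Q := by
    intro r m E Q hQ hQE hrm h
    have h1 : Real.exp (κ * m) * Q ≤ Real.exp (κ * r) * Q :=
      (mul_le_mul_of_nonneg_left hQE (Real.exp_pos _).le).trans h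
    have h2 : Real.exp (κ * m) ≤ Real.exp (κ * r) := le_of_mul_le_mul_right h1 hQ
    have h3 : κ * m ≤ κ * r := Real.exp_le_exp.1 h2
    have h4 : (m : ℝ) ≤ r := le_of_mul_le_mul_left h3 hκ
    have h5 : (m : ℝ) = r := le_antisymm h4 hrm
    refine ⟨by exact_mod_cast h5, le_antisymm ?_ hQE⟩
    rw [h5] at h
    exact le_of_mul_le_mul_left h (Real.exp_pos _)
  refine ⟨fun h => off_line hf h hκ, fun h => ?_, fun r => ?_, fun r => ?_⟩
  · obtain ⟨h1, -, h2, h3⟩ := on_line hf h hκ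
    exact ⟨h1, h2, h3, mean_lim hf h⟩
  · constructor
    · rintro ⟨h1, h2, h3⟩
      obtain ⟨⟨E, -, hE, -, h4, -, -⟩, -⟩ := on_line hf h1 hκ
      rw [h4.2 h3, h2] at hE
      exact ⟨hev hE rfl, hmr r h1 h2⟩
    · rintro ⟨h1, h2⟩
      have h3 := hfr _ (h1 1 one_pos)
      obtain ⟨⟨E, -, hE, h5, h4, -, -⟩, hQ, -⟩ := on_line hf h3 hκ
      obtain ⟨h6, h7⟩ := hcmp r (order f) E _ hQ h5 (hord r h3 h2) (hle hE h1)
      exact ⟨h3, h6, h4.1 h7⟩
  · constructor
    · rintro ⟨h1, h2, h3⟩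
      obtain ⟨⟨E, -, hE, -, -, -, h4⟩, -⟩ := on_line hf h1 hκ
      rw [h4.2 h3, h2] at hE
      exact ⟨hev hE rfl, hmr r h1 h2⟩
    · rintro ⟨h1, h2⟩
      have h3 := hfr _ (h1 1 one_pos)
      obtain ⟨⟨E, hE0, hE, -, -, h5, h4⟩, -, -, hQm⟩ := on_line hf h3 hκ
      have hQ : 0 < productMult f κ := by
        have h8 : ∀ t : ordinates f, 1 ≤ I₀ (2 * κ * (1 / (1 + (t : ℝ) ^ 2))) ^ mult f t := fun t =>
          one_le_pow₀ (one_le_I0 _)
        have h9 := prod_le_tprod hQm h8 ∅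
        rw [Finset.prod_empty] at h9
        exact zero_lt_one.trans_le h9
      obtain ⟨h6, h7⟩ := hcmp r (order f) E _ hQ h5 (hord r h3 h2) (hle hE h1)
      exact ⟨h3, h6, (h4.1 h7).1, (h4.1 h7).2⟩

end Pool.Agent.Results.MP_3283e1_nt.TwoAverages
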